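import Pool.Agent.H.MP_dd51f8_al.Proof

/-!
# MP_dd51f8_al : upper bounds from rules and a potential

Words are reduced by rules (pairs of words with equal value, the second one shortlex smaller). The words of length `k` which
avoid all left hand sides are counted with a potential: a tree which gives a natural number for all these words `p` of length at
most 7 (read from the last letter), such that the sum of the potentials of the `p c`, for the letters `c`, is at most `9/4`
times the potential of `p`.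
-/

open Filter Topology

namespace Pool.Agent.H.MP_dd51f8_al.NB

open Pool.Agent.H.MP_dd51f8_al

/-- evaluation of a word at an integer -/
def evf : List (Fin 4) → ℤ → ℤ
  | [], x => x
  | c :: w, x => match c with
    | 0 => c3 (evf w x)
    | 1 => c3' (evf w x)
    | 2 => evf w x + 1
    | 3 => evf w x - 1

theorem evf_eq (w : List (Fin 4)) (x : ℤ) : evf w x = evZ w x := by
  induction w with
  | nil => rfl
  | cons c w ih =>
    rw [evZ, ev_cons, Equiv.Perm.mul_apply]
    change _ = gen shiftZ cycZ c (evZ w x)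
    rw [← ih]
    fin_cases c <;> rfl

theorem num_split (a : ℕ) (w : List (Fin 4)) : num a w = a * 4 ^ w.length + num 0 w := by
  induction w generalizing a with
  | nil => simp [num]
  | cons c w ih =>
    rw [num, ih, num, ih (4 * 0 + c), List.length_cons, pow_succ]
    ring

/-- the test for a rule -/
def okr (r : List (Fin 4) × List (Fin 4)) : Bool :=
  (decide (r.2.length < r.1.length) ||
    (decide (r.2.length = r.1.length) && decide (num 0 r.2 < num 0 r.1))) &&
  decide (r.1.length ≤ 8) && decide (ex r.1 = ex r.2) &&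
    (List.range 19).all fun n => decide (evf r.1 ((n : ℤ) - 9) = evf r.2 ((n : ℤ) - 9))

theorem okr_num {r : List (Fin 4) × List (Fin 4)} (h : okr r = true) (a : ℕ) (ha : 1 ≤ a) :
    num a r.2 < num a r.1 := by
  unfold okr at h
  simp only [Bool.and_eq_true, Bool.or_eq_true, decide_eq_true_eq] at h
  rw [num_split a r.2, num_split a r.1]
  rcases h.1.1.1 with h1 | ⟨h1, h2⟩
  · have h3 := num_upper 0 r.2
    have h4 : 4 ^ (r.2.length + 1) ≤ 4 ^ r.1.length := Nat.pow_le_pow_right (by norm_num) h1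
    rw [pow_succ] at h4
    nlinarith [Nat.zero_le (num 0 r.1)]
  · rw [h1]
    omega

theorem okr_ev {r : List (Fin 4) × List (Fin 4)} (h : okr r = true) : evZ r.1 = evZ r.2 := by
  unfold okr at h
  simp only [Bool.and_eq_true, Bool.or_eq_true, decide_eq_true_eq, List.all_eq_true,
    List.mem_range] at h
  obtain ⟨⟨⟨h1, h2⟩, h3⟩, h4⟩ := h
  have h5 : r.2.length ≤ 8 := by omega
  ext x
  by_cases hx : |x| ≤ 9
  · obtain ⟨hx1, hx2⟩ := abs_le.1 hx
    have h6 := h4 (x + 9).toNat (by omega)
    have h7 : (((x + 9).toNat : ℕ) : ℤ) - 9 = x := by omega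
    rw [h7] at h6
    rwa [evf_eq, evf_eq] at h6
  · push Not at hx
    have h1' : (r.1.length : ℤ) ≤ 8 := by exact_mod_cast h2
    have h2' : (r.2.length : ℤ) ≤ 8 := by exact_mod_cast h5
    rw [(evZ_far r.1 x (by omega)).1, (evZ_far r.2 x (by omega)).1, h3]

/-- words avoiding the left hand sides of `R` -/
def Gd (R : List (List (Fin 4) × List (Fin 4))) (w : List (Fin 4)) : Prop :=
  ∀ r ∈ R, ¬ r.1 <:+: w

variable {R : List (List (Fin 4) × List (Fin 4))}

theorem exists_gd (hR : ∀ r ∈ R, okr r = true) (w : List (Fin 4)) :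
    ∃ v, Gd R v ∧ v.length ≤ w.length ∧ evZ v = evZ w := by
  classical
  have hex : ∃ n : ℕ, ∃ v, evZ v = evZ w ∧ num 1 v = n := ⟨_, w, rfl, rfl⟩
  obtain ⟨v, hv, hn⟩ := Nat.find_spec hex
  have hmin : ∀ v', evZ v' = evZ w → num 1 v ≤ num 1 v' := by
    intro v' hv'
    rw [hn]
    exact Nat.find_min' hex ⟨v', hv', rfl⟩
  refine ⟨v, ?_, ?_, hv⟩
  · rintro r hr ⟨s, t, hst⟩
    have h1 : evZ (s ++ r.2 ++ t) = evZ w := by
      rw [← hv, ← hst, evZ, evZ, ev_append, ev_append, ev_append, ev_append]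
      change ev shiftZ cycZ s * evZ r.2 * ev shiftZ cycZ t =
        ev shiftZ cycZ s * evZ r.1 * ev shiftZ cycZ t
      rw [okr_ev (hR r hr)]
    have h2 := hmin _ h1
    rw [← hst, num_append, num_append, num_append, num_append] at h2
    have h3 : 1 ≤ num 1 s := le_trans (by simpa using Nat.one_le_pow _ _ (by norm_num))
      (num_lower 1 s)
    have h4 := num_mono (okr_num (hR r hr) _ h3) t
    omega
  · by_contra hlt
    push Not at hlt
    have h1 := hmin w rfl
    have h2 := num_lower 1 v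
    have h3 := num_upper 1 w
    have h4 : 4 ^ (w.length + 1) ≤ 4 ^ v.length := Nat.pow_le_pow_right (by norm_num) hlt
    rw [pow_succ] at h4
    omega

/-- number of words of length `k` which give good words when prefixed by `p` -/
noncomputable def Nn (R : List (List (Fin 4) × List (Fin 4))) (k : ℕ) (p : List (Fin 4)) : ℕ :=
  Set.ncard {w : List (Fin 4) | w.length = k ∧ Gd R (p ++ w)}

theorem Nn_fin (k : ℕ) (p : List (Fin 4)) :
    {w : List (Fin 4) | w.length = k ∧ Gd R (p ++ w)}.Finite :=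
  (List.finite_length_eq (Fin 4) k).subset fun _ h => h.1

theorem Nn_zero (p : List (Fin 4)) : Nn R 0 p ≤ 1 := by
  have : {w : List (Fin 4) | w.length = 0 ∧ Gd R (p ++ w)} ⊆ {[]} := by
    intro w hw
    exact List.length_eq_zero_iff.1 hw.1
  calc Nn R 0 p ≤ ({[]} : Set (List (Fin 4))).ncard := Set.ncard_le_ncard this (Set.finite_singleton _)
    _ = 1 := Set.ncard_singleton _

theorem Nn_suffix (k : ℕ) (p q : List (Fin 4)) : Nn R k (p ++ q) ≤ Nn R k q := by
  apply Set.ncard_le_ncard _ (Nn_fin k q)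
  intro w hw
  refine ⟨hw.1, fun r hr hi => hw.2 r hr ?_⟩
  rw [List.append_assoc]
  exact hi.trans (List.suffix_append _ _).isInfix

theorem Nn_bad (k : ℕ) (p : List (Fin 4)) (r : List (Fin 4) × List (Fin 4)) (hr : r ∈ R)
    (h : r.1 <:+: p) : Nn R k p = 0 := by
  unfold Nn
  rw [Set.ncard_eq_zero (Nn_fin k p)]
  apply Set.eq_empty_of_forall_notMem
  intro w hw
  exact hw.2 r hr (h.trans (List.prefix_append _ _).isInfix)

theorem Nn_succ (k : ℕ) (p : List (Fin 4)) :
    Nn R (k + 1) p ≤ Nn R k (p ++ [0]) + Nn R k (p ++ [1]) + Nn R k (p ++ [2]) +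
      Nn R k (p ++ [3]) := by
  have hsub : {w : List (Fin 4) | w.length = k + 1 ∧ Gd R (p ++ w)} ⊆
      (List.cons 0 '' {w : List (Fin 4) | w.length = k ∧ Gd R ((p ++ [0]) ++ w)} ∪
      List.cons 1 '' {w : List (Fin 4) | w.length = k ∧ Gd R ((p ++ [1]) ++ w)}) ∪
      List.cons 2 '' {w : List (Fin 4) | w.length = k ∧ Gd R ((p ++ [2]) ++ w)} ∪
      List.cons 3 '' {w : List (Fin 4) | w.length = k ∧ Gd R ((p ++ [3]) ++ w)} := by
    rintro w ⟨hw, hg⟩
    cases w with
    | nil => simp at hw
    | cons c w =>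
      have hw' : w.length = k := by simpa using hw
      have hg' : Gd R ((p ++ [c]) ++ w) := by simpa using hg
      fin_cases c
      · exact Or.inl (Or.inl (Or.inl ⟨w, ⟨hw', hg'⟩, rfl⟩))
      · exact Or.inl (Or.inl (Or.inr ⟨w, ⟨hw', hg'⟩, rfl⟩))
      · exact Or.inl (Or.inr ⟨w, ⟨hw', hg'⟩, rfl⟩)
      · exact Or.inr ⟨w, ⟨hw', hg'⟩, rfl⟩
  have hi : ∀ c : Fin 4, (List.cons c '' {w : List (Fin 4) | w.length = k ∧
      Gd R ((p ++ [c]) ++ w)}).ncard ≤ Nn R k (p ++ [c]) := fun c => Set.ncard_image_le (Nn_fin k _)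
  have hf : ∀ c : Fin 4, (List.cons c '' {w : List (Fin 4) | w.length = k ∧
      Gd R ((p ++ [c]) ++ w)}).Finite := fun c => (Nn_fin k _).image _
  calc Nn R (k + 1) p ≤ _ := Set.ncard_le_ncard hsub ((((hf 0).union (hf 1)).union (hf 2)).union (hf 3))
    _ ≤ _ := Set.ncard_union_le _ _
    _ ≤ _ := Nat.add_le_add_right (Set.ncard_union_le _ _) _
    _ ≤ _ := Nat.add_le_add_right (Nat.add_le_add_right (Set.ncard_union_le _ _) _) _
    _ ≤ _ := Nat.add_le_add (Nat.add_le_add (Nat.add_le_add (hi 0) (hi 1)) (hi 2)) (hi 3)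

/-- trees with a natural number at each node -/
inductive Tr : Type where
  | o : Tr
  | n : ℕ → Tr → Tr → Tr → Tr → Tr

/-- the number at the end of a path, `0` outside of the tree -/
def walk : Tr → List (Fin 4) → ℕ
  | Tr.o, _ => 0
  | Tr.n v _ _ _ _, [] => v
  | Tr.n _ a b c d, x :: s => match x with
    | 0 => walk a s
    | 1 => walk b s
    | 2 => walk c s
    | 3 => walk d s

/-- the reversed word `q` has a left hand side as a suffix -/
def bad (l : List (List (Fin 4) × List (Fin 4))) (q : List (Fin 4)) : Bool :=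
  l.any fun r => r.1.reverse.isPrefixOf q

/-- the potential of a reversed word of length at most 8 -/
def cval (T : Tr) (l7 l8 : List (List (Fin 4) × List (Fin 4))) (q : List (Fin 4)) : Option ℕ :=
  if q.length = 8 ∧ bad l8 q = true then some 0 else
    match walk T (q.take 7) with
    | 0 => if bad l7 q = true then some 0 else none
    | v + 1 => some (v + 1)

/-- the test for a node with the value `v` and the word `p` -/
def okn (T : Tr) (l7 l8 : List (List (Fin 4) × List (Fin 4))) (v : ℕ) (p : List (Fin 4)) : Bool :=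
  match cval T l7 l8 (0 :: p.reverse), cval T l7 l8 (1 :: p.reverse), cval T l7 l8 (2 :: p.reverse),
    cval T l7 l8 (3 :: p.reverse) with
  | some x0, some x1, some x2, some x3 => decide ((x0 + x1 + x2 + x3) * 4 ≤ 9 * v)
  | _, _, _, _ => false

/-- the test for all nodes -/
def chk (T : Tr) (l7 l8 : List (List (Fin 4) × List (Fin 4))) : Tr → List (Fin 4) → Bool
  | Tr.o, _ => true
  | Tr.n v a b c d, p => okn T l7 l8 v p && (chk T l7 l8 a (0 :: p) && (chk T l7 l8 b (1 :: p) &&
      (chk T l7 l8 c (2 :: p) && chk T l7 l8 d (3 :: p))))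

theorem okn_of_chk {T : Tr} {l7 l8 : List (List (Fin 4) × List (Fin 4))} :
    ∀ (S : Tr) (p : List (Fin 4)), chk T l7 l8 S p = true → ∀ s, walk S s ≠ 0 →
      okn T l7 l8 (walk S s) (s.reverse ++ p) = true := by
  intro S
  induction S with
  | o => intro p _ s hs; exact absurd (by simp [walk]) hs
  | n v a b c d iha ihb ihc ihd =>
    intro p h s hs
    rw [chk, Bool.and_eq_true, Bool.and_eq_true, Bool.and_eq_true, Bool.and_eq_true] at h
    obtain ⟨h0, h1, h2, h3, h4⟩ := h
    cases s with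
    | nil => simpa [walk] using h0
    | cons x s =>
      rw [List.reverse_cons, List.append_assoc, List.singleton_append]
      fin_cases x
      · exact iha _ h1 s hs
      · exact ihb _ h2 s hs
      · exact ihc _ h3 s hs
      · exact ihd _ h4 s hs

theorem bad_spec {l : List (List (Fin 4) × List (Fin 4))} (hl : ∀ r ∈ l, r ∈ R)
    {q : List (Fin 4)} (h : bad l q.reverse = true) (k : ℕ) : Nn R k q = 0 := by
  unfold bad at h
  rw [List.any_eq_true] at h
  obtain ⟨r, hr, h1⟩ := h
  rw [List.isPrefixOf_iff_prefix] at h1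
  have h2 : r.1 <:+ q := List.reverse_prefix.1 h1
  exact Nn_bad k q r (hl r hr) h2.isInfix

theorem cval_spec {T : Tr} {l7 l8 : List (List (Fin 4) × List (Fin 4))} (h7 : ∀ r ∈ l7, r ∈ R)
    (h8 : ∀ r ∈ l8, r ∈ R) {k : ℕ}
    (ih : ∀ p : List (Fin 4), walk T p.reverse ≠ 0 → p.length ≤ 7 →
      (Nn R k p : ℝ) ≤ walk T p.reverse * (9 / 4 : ℝ) ^ k) {p : List (Fin 4)} (c : Fin 4)
    {x : ℕ} (hx : cval T l7 l8 (c :: p.reverse) = some x) :
    (Nn R k (p ++ [c]) : ℝ) ≤ x * (9 / 4 : ℝ) ^ k := by
  have hrev : (p ++ [c]).reverse = c :: p.reverse := by simp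
  have hp : (0 : ℝ) ≤ (9 / 4 : ℝ) ^ k := by positivity
  rw [← hrev] at hx
  unfold cval at hx
  by_cases h1 : (p ++ [c]).reverse.length = 8 ∧ bad l8 (p ++ [c]).reverse = true
  · rw [bad_spec h8 h1.2 k]
    have h5 : (0 : ℝ) ≤ (x : ℝ) * (9 / 4 : ℝ) ^ k := by positivity
    simpa using h5
  · rw [if_neg h1] at hx
    rcases Nat.eq_zero_or_pos (walk T ((p ++ [c]).reverse.take 7)) with hw | hw
    · rw [hw] at hx
      by_cases h2 : bad l7 (p ++ [c]).reverse = true
      · rw [bad_spec h7 h2 k]
        have h5 : (0 : ℝ) ≤ (x : ℝ) * (9 / 4 : ℝ) ^ k := by positivity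
        simpa using h5
      · exfalso
        simp only [if_neg h2] at hx
        exact absurd hx (by simp)
    · obtain ⟨v, hv⟩ : ∃ v, walk T ((p ++ [c]).reverse.take 7) = v + 1 := ⟨_, (Nat.succ_pred_eq_of_pos hw).symm⟩
      rw [hv] at hx
      simp only [Option.some.injEq] at hx
      subst hx
      obtain ⟨q, hq⟩ : ∃ q : List (Fin 4), q.reverse = (p ++ [c]).reverse.take 7 :=
        ⟨((p ++ [c]).reverse.take 7).reverse, List.reverse_reverse _⟩
      have hs : q <:+ p ++ [c] := by
        rw [← List.reverse_prefix, hq]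
        exact List.take_prefix _ _
      obtain ⟨u, hu⟩ := hs
      have hl : q.length ≤ 7 := by
        rw [← List.length_reverse, hq, List.length_take]
        exact min_le_left _ _
      have h3 := ih q (by rw [hq, hv]; omega) hl
      rw [hq, hv] at h3
      have h4 : (Nn R k (p ++ [c]) : ℝ) ≤ Nn R k q := by
        rw [← hu]
        exact_mod_cast Nn_suffix k u q
      exact h4.trans h3

theorem Nn_le {T : Tr} {l7 l8 : List (List (Fin 4) × List (Fin 4))} (h7 : ∀ r ∈ l7, r ∈ R)
    (h8 : ∀ r ∈ l8, r ∈ R) (hT : chk T l7 l8 T [] = true) (k : ℕ) :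
    ∀ p : List (Fin 4), walk T p.reverse ≠ 0 → p.length ≤ 7 →
      (Nn R k p : ℝ) ≤ walk T p.reverse * (9 / 4 : ℝ) ^ k := by
  induction k with
  | zero =>
    intro p hp _
    have h1 : (Nn R 0 p : ℝ) ≤ 1 := by exact_mod_cast Nn_zero p
    have h2 : (1 : ℝ) ≤ walk T p.reverse := by exact_mod_cast Nat.one_le_iff_ne_zero.2 hp
    simpa using h1.trans h2
  | succ k ih =>
    intro p hp _
    have h1 := okn_of_chk T [] hT _ hp
    rw [List.reverse_reverse, List.append_nil] at h1
    unfold okn at h1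
    have S : (Nn R (k + 1) p : ℝ) ≤ Nn R k (p ++ [0]) + Nn R k (p ++ [1]) + Nn R k (p ++ [2]) +
        Nn R k (p ++ [3]) := by exact_mod_cast Nn_succ k p
    cases e0 : cval T l7 l8 (0 :: p.reverse) with
    | none => simp [e0] at h1
    | some x0 =>
      cases e1 : cval T l7 l8 (1 :: p.reverse) with
      | none => simp [e0, e1] at h1
      | some x1 =>
        cases e2 : cval T l7 l8 (2 :: p.reverse) with
        | none => simp [e0, e1, e2] at h1
        | some x2 =>
          cases e3 : cval T l7 l8 (3 :: p.reverse) with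
          | none => simp [e0, e1, e2, e3] at h1
          | some x3 =>
            simp only [e0, e1, e2, e3, decide_eq_true_eq] at h1
            have i0 := cval_spec h7 h8 ih 0 e0
            have i1 := cval_spec h7 h8 ih 1 e1
            have i2 := cval_spec h7 h8 ih 2 e2
            have i3 := cval_spec h7 h8 ih 3 e3
            have h2 : (((x0 + x1 + x2 + x3) * 4 : ℕ) : ℝ) ≤ ((9 * walk T p.reverse : ℕ) : ℝ) := by
              exact_mod_cast h1
            push_cast at h2
            have hp : (0 : ℝ) < (9 / 4 : ℝ) ^ k := by positivity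
            rw [pow_succ]
            nlinarith

theorem L_le_nine {T : Tr} {l7 l8 : List (List (Fin 4) × List (Fin 4))}
    (hR : ∀ r ∈ l7 ++ l8, okr r = true) (hT : chk T l7 l8 T [] = true) (h0 : walk T [] ≠ 0) :
    Real.exp (L shiftZ cycZ) ≤ 9 / 4 := by
  have hN : ∀ k, (Nn (l7 ++ l8) k [] : ℝ) ≤ walk T [] * (9 / 4 : ℝ) ^ k := fun k =>
    Nn_le (R := l7 ++ l8) (fun r hr => List.mem_append_left _ hr)
      (fun r hr => List.mem_append_right _ hr) hT k [] h0 (by simp)
  have hup : ∀ k : ℕ, (ballCard ({shiftZ, cycZ} : Set (Equiv.Perm ℤ)) k : ℝ) ≤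
      walk T [] * (k + 1) * (9 / 4 : ℝ) ^ k := by
    intro k
    have h1 : ballCard ({shiftZ, cycZ} : Set (Equiv.Perm ℤ)) k ≤
        ∑ j ∈ Finset.range (k + 1), Nn (l7 ++ l8) j [] := by
      rw [ballCard_eq]
      have hsub : ev shiftZ cycZ '' wle k ⊆ ⋃ j ∈ Finset.range (k + 1),
          evZ '' {w : List (Fin 4) | w.length = j ∧ Gd (l7 ++ l8) ([] ++ w)} := by
        rintro _ ⟨w, hw, rfl⟩
        obtain ⟨v, hv1, hv2, hv3⟩ := exists_gd hR w
        simp only [Set.mem_iUnion]
        refine ⟨v.length, ?_, v, ⟨rfl, by simpa using hv1⟩, hv3⟩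
        rw [Finset.mem_range]
        have : w.length ≤ k := hw
        omega
      calc (ev shiftZ cycZ '' wle k).ncard ≤ _ := Set.ncard_le_ncard hsub
            (Set.Finite.biUnion (Finset.finite_toSet _) fun j _ => (Nn_fin j []).image _)
        _ ≤ ∑ j ∈ Finset.range (k + 1), (evZ '' {w : List (Fin 4) | w.length = j ∧
            Gd (l7 ++ l8) ([] ++ w)}).ncard := Finset.set_ncard_biUnion_le _ _
        _ ≤ _ := Finset.sum_le_sum fun j _ => Set.ncard_image_le (Nn_fin j [])
    have h2 : (ballCard ({shiftZ, cycZ} : Set (Equiv.Perm ℤ)) k : ℝ) ≤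
        ∑ j ∈ Finset.range (k + 1), (Nn (l7 ++ l8) j [] : ℝ) := by exact_mod_cast h1
    calc (ballCard ({shiftZ, cycZ} : Set (Equiv.Perm ℤ)) k : ℝ)
        ≤ ∑ j ∈ Finset.range (k + 1), (Nn (l7 ++ l8) j [] : ℝ) := h2
      _ ≤ ∑ j ∈ Finset.range (k + 1), walk T [] * (9 / 4 : ℝ) ^ k := by
          apply Finset.sum_le_sum
          intro j hj
          rw [Finset.mem_range] at hj
          refine (hN j).trans ?_
          apply mul_le_mul_of_nonneg_left _ (Nat.cast_nonneg _)
          exact pow_le_pow_right₀ (by norm_num) (by omega)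
      _ = walk T [] * (k + 1) * (9 / 4 : ℝ) ^ k := by
          rw [Finset.sum_const, Finset.card_range, nsmul_eq_mul]
          push_cast
          ring
  have hC : (0 : ℝ) < walk T [] := by exact_mod_cast Nat.pos_of_ne_zero h0
  have h := L_le_log shiftZ cycZ hC (by norm_num : (0 : ℝ) < 9 / 4) hup
  calc Real.exp (L shiftZ cycZ) ≤ Real.exp (Real.log (9 / 4)) := Real.exp_le_exp.2 h
    _ = _ := Real.exp_log (by norm_num)

end Pool.Agent.H.MP_dd51f8_al.NB
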