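import Pool.Agent.H.MP_dd51f8_al.NB.Alg

/-!
# MP_dd51f8_al : data for the upper bound 9/4

The rules (left and right hand sides of equal value, the right hand side shortlex smaller) and the potential on the words of
length at most 7 without left hand sides, as a tree (last letter first).
-/

namespace Pool.Agent.H.MP_dd51f8_al.NB

open Tr

/-- the rules with left hand sides of length at most 7 -/
def R7 : List (List (Fin 4) × List (Fin 4)) :=
  [([0, 0], [1]),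
   ([0, 1], []),
   ([1, 0], []),
   ([1, 1], [0]),
   ([2, 3], []),
   ([3, 2], []),
   ([2, 0, 3, 0], [1, 2, 1, 3]),
   ([2, 1, 3, 1], [0, 2, 0, 3]),
   ([3, 0, 2, 0], [1, 3, 1, 2]),
   ([3, 1, 2, 1], [0, 3, 0, 2]),
   ([0, 2, 0, 3, 1], [2, 1, 3, 0]),
   ([0, 3, 0, 2, 1], [3, 1, 2, 0]),
   ([1, 2, 0, 3, 1], [0, 2, 1, 3, 0]),
   ([1, 2, 1, 3, 0], [2, 0, 3, 1]),
   ([1, 3, 0, 2, 1], [0, 3, 1, 2, 0]),
   ([1, 3, 1, 2, 0], [3, 0, 2, 1]),
   ([2, 0, 3, 1, 2, 0], [0, 2, 1, 3, 0, 2]),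
   ([3, 0, 2, 1, 3, 0], [0, 3, 1, 2, 0, 3]),
   ([0, 2, 1, 2, 0, 3, 3], [2, 2, 0, 3, 3, 0]),
   ([0, 2, 2, 1, 3, 0, 3], [2, 2, 1, 3, 3, 0]),
   ([0, 3, 1, 2, 2, 0, 3], [2, 0, 3, 3, 1, 2]),
   ([0, 3, 3, 0, 2, 2, 1], [3, 3, 0, 2, 1, 2]),
   ([0, 3, 3, 1, 2, 2, 1], [3, 0, 3, 1, 2, 2]),
   ([1, 2, 0, 3, 3, 1, 2], [3, 1, 2, 2, 0, 3]),
   ([1, 2, 1, 2, 0, 3, 3], [0, 2, 2, 0, 3, 3, 0]),
   ([1, 2, 2, 0, 3, 3, 0], [2, 1, 2, 0, 3, 3]),
   ([1, 2, 2, 1, 3, 0, 3], [0, 2, 2, 1, 3, 3, 0]),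
   ([1, 2, 2, 1, 3, 3, 0], [2, 2, 1, 3, 0, 3]),
   ([1, 3, 0, 3, 1, 2, 2], [3, 3, 1, 2, 2, 1]),
   ([1, 3, 1, 2, 2, 0, 3], [0, 2, 0, 3, 3, 1, 2]),
   ([1, 3, 3, 0, 2, 1, 2], [3, 3, 0, 2, 2, 1]),
   ([1, 3, 3, 0, 2, 2, 1], [0, 3, 3, 0, 2, 1, 2]),
   ([1, 3, 3, 1, 2, 2, 1], [0, 3, 0, 3, 1, 2, 2]),
   ([2, 0, 2, 0, 3, 3, 0], [1, 2, 0, 2, 0, 3, 3]),
   ([2, 0, 2, 0, 3, 3, 1], [0, 2, 0, 2, 0, 3, 3]),
   ([2, 0, 2, 1, 3, 3, 0], [1, 2, 2, 0, 3, 1, 3]),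
   ([2, 0, 3, 1, 3, 1, 2], [1, 3, 1, 2, 2, 1, 3]),
   ([2, 0, 3, 3, 0, 2, 2], [3, 0, 2, 1, 2, 0]),
   ([2, 0, 3, 3, 1, 2, 0], [1, 3, 0, 2, 2, 1, 3]),
   ([2, 0, 3, 3, 1, 2, 2], [0, 3, 1, 2, 2, 0]),
   ([2, 1, 2, 0, 3, 3, 0], [1, 2, 2, 0, 3, 3, 1]),
   ([2, 1, 2, 0, 3, 3, 1], [1, 2, 2, 0, 3, 3]),
   ([2, 1, 3, 0, 3, 1, 2], [3, 1, 2, 2, 1, 3]),
   ([2, 1, 3, 3, 0, 2, 1], [3, 0, 2, 2, 1, 3]),
   ([2, 2, 0, 3, 1, 3, 1], [0, 2, 0, 2, 1, 3, 3]),
   ([2, 2, 0, 3, 3, 0, 2], [0, 2, 1, 2, 0, 3]),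
   ([2, 2, 1, 3, 0, 3, 0], [1, 2, 2, 1, 3, 3, 1]),
   ([2, 2, 1, 3, 0, 3, 1], [1, 2, 2, 1, 3, 3]),
   ([2, 2, 1, 3, 3, 0, 2], [0, 2, 2, 1, 3, 0]),
   ([3, 0, 2, 1, 2, 0, 3], [2, 0, 3, 3, 0, 2]),
   ([3, 0, 2, 2, 1, 3, 0], [2, 1, 3, 3, 0, 2]),
   ([3, 0, 3, 1, 2, 2, 0], [0, 3, 3, 1, 2, 2]),
   ([3, 0, 3, 1, 2, 2, 1], [0, 3, 3, 1, 2, 2, 0]),
   ([3, 1, 2, 0, 2, 0, 3], [0, 2, 0, 3, 3, 0, 2]),
   ([3, 1, 2, 2, 0, 3, 1], [0, 2, 1, 3, 3, 0, 2]),
   ([3, 1, 2, 2, 0, 3, 3], [1, 2, 0, 3, 3, 1]),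
   ([3, 1, 2, 2, 1, 3, 3], [2, 1, 3, 0, 3, 1]),
   ([3, 1, 3, 0, 2, 2, 1], [0, 3, 3, 1, 2, 0, 2]),
   ([3, 1, 3, 1, 2, 2, 0], [1, 3, 1, 3, 1, 2, 2]),
   ([3, 1, 3, 1, 2, 2, 1], [0, 3, 1, 3, 1, 2, 2]),
   ([3, 3, 0, 2, 1, 2, 0], [0, 3, 3, 0, 2, 2]),
   ([3, 3, 0, 2, 1, 2, 1], [0, 3, 3, 0, 2, 2, 0]),
   ([3, 3, 0, 2, 2, 1, 3], [1, 3, 3, 0, 2, 1]),
   ([3, 3, 1, 2, 0, 2, 0], [1, 3, 1, 3, 0, 2, 2]),
   ([3, 3, 1, 2, 2, 1, 3], [1, 3, 0, 3, 1, 2])]

/-- the rules with left hand sides of length 8 -/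
def R8 : List (List (Fin 4) × List (Fin 4)) :=
  [([0, 2, 0, 2, 1, 3, 3, 1], [2, 2, 0, 3, 1, 3, 0]),
   ([0, 2, 0, 3, 3, 0, 2, 1], [3, 1, 2, 2, 1, 3, 0]),
   ([0, 3, 3, 1, 2, 0, 2, 1], [3, 1, 3, 0, 2, 2, 0]),
   ([1, 2, 0, 2, 1, 3, 3, 1], [0, 2, 2, 0, 3, 1, 3, 0]),
   ([1, 2, 0, 3, 3, 0, 2, 1], [0, 3, 1, 2, 2, 1, 3, 0]),
   ([1, 2, 2, 0, 3, 1, 3, 0], [2, 0, 2, 1, 3, 3, 1]),
   ([1, 3, 1, 2, 2, 1, 3, 0], [2, 0, 3, 3, 0, 2, 1]),
   ([1, 3, 1, 3, 0, 2, 2, 0], [3, 3, 1, 2, 0, 2, 1]),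
   ([1, 3, 3, 1, 2, 0, 2, 1], [0, 3, 1, 3, 0, 2, 2, 0]),
   ([2, 1, 3, 0, 2, 2, 0, 3], [0, 2, 2, 0, 3, 3, 1, 2]),
   ([2, 1, 3, 3, 1, 2, 2, 0], [0, 2, 1, 3, 3, 1, 2, 2]),
   ([2, 2, 1, 3, 3, 1, 2, 0], [0, 2, 2, 1, 3, 3, 1, 2]),
   ([2, 2, 2, 0, 3, 3, 3, 0], [0, 2, 2, 2, 0, 3, 3, 3]),
   ([2, 2, 2, 0, 3, 3, 3, 1], [1, 2, 2, 2, 0, 3, 3, 3]),
   ([2, 2, 2, 1, 3, 3, 3, 0], [0, 2, 2, 2, 1, 3, 3, 3]),
   ([2, 2, 2, 1, 3, 3, 3, 1], [1, 2, 2, 2, 1, 3, 3, 3]),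
   ([3, 0, 2, 1, 3, 3, 1, 2], [1, 3, 3, 1, 2, 2, 0, 3]),
   ([3, 0, 2, 2, 0, 3, 1, 2], [2, 1, 3, 3, 0, 2, 2, 0]),
   ([3, 0, 2, 2, 0, 3, 3, 0], [0, 3, 0, 2, 2, 0, 3, 3]),
   ([3, 0, 2, 2, 0, 3, 3, 1], [1, 3, 0, 2, 2, 0, 3, 3]),
   ([3, 0, 2, 2, 1, 3, 3, 1], [2, 1, 3, 3, 1, 2, 0, 3]),
   ([3, 0, 2, 2, 2, 0, 3, 3], [2, 2, 0, 3, 3, 3, 0, 2]),
   ([3, 0, 2, 2, 2, 1, 3, 3], [2, 2, 1, 3, 3, 3, 0, 2]),
   ([3, 1, 2, 0, 2, 1, 3, 0], [0, 3, 0, 2, 2, 0, 3, 1]),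
   ([3, 1, 2, 2, 2, 0, 3, 3], [2, 2, 0, 3, 3, 3, 1, 2]),
   ([3, 1, 2, 2, 2, 1, 3, 3], [2, 2, 1, 3, 3, 3, 1, 2]),
   ([3, 3, 0, 2, 2, 0, 3, 1], [1, 3, 3, 0, 2, 2, 0, 3]),
   ([3, 3, 0, 2, 2, 2, 0, 3], [2, 0, 3, 3, 3, 0, 2, 2]),
   ([3, 3, 0, 2, 2, 2, 1, 3], [2, 1, 3, 3, 3, 0, 2, 2]),
   ([3, 3, 1, 2, 2, 2, 0, 3], [2, 0, 3, 3, 3, 1, 2, 2]),
   ([3, 3, 1, 2, 2, 2, 1, 3], [2, 1, 3, 3, 3, 1, 2, 2]),
   ([3, 3, 3, 0, 2, 2, 2, 0], [0, 3, 3, 3, 0, 2, 2, 2]),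
   ([3, 3, 3, 0, 2, 2, 2, 1], [1, 3, 3, 3, 0, 2, 2, 2]),
   ([3, 3, 3, 1, 2, 2, 2, 0], [0, 3, 3, 3, 1, 2, 2, 2]),
   ([3, 3, 3, 1, 2, 2, 2, 1], [1, 3, 3, 3, 1, 2, 2, 2])]

/-- a part of the tree -/
def t020 : Tr :=
  (n 9967 o o (n 8733 (n 8733 o o (n 8733 (n 8733 o o o o) (n 8733 o o o o) (n 8733 o o o o) o) o) (n
   8733 o o (n 8733 (n 8733 o o o o) (n 8733 o o o o) (n 8733 o o o o) o) (n 7231 (n 7231 o o o o) o
   o o)) (n 8733 (n 8733 o o (n 8733 o o o o) (n 8733 o o o o)) (n 8733 o o (n 8733 o o o o) (n 8733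
   o o o o)) (n 8733 (n 8733 o o o o) (n 8733 o o o o) (n 8733 o o o o) o) o) o) o)

/-- a part of the tree -/
def t120 : Tr :=
  (n 9965 o o (n 8733 (n 7251 o o (n 7251 (n 7251 o o o o) (n 7251 o o o o) (n 7251 o o o o) o) (n
   7231 o o o o)) (n 7251 o o (n 7251 (n 7251 o o o o) (n 7251 o o o o) (n 7251 o o o o) o) o) (n
   8733 (n 8733 o o (n 8733 o o o o) (n 8733 o o o o)) (n 8733 o o (n 8733 o o o o) (n 8733 o o o
   o)) (n 8733 (n 8733 o o o o) (n 8733 o o o o) (n 8733 o o o o) o) o) o) (n 9297 (n 9297 o o o (n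
   9297 (n 9297 o o o o) (n 9297 o o o o) o (n 9297 o o o o))) o o (n 7869 (n 6240 o o o (n 6240 o o
   o o)) (n 6240 o o (n 6240 o o o o) (n 6240 o o o o)) o (n 7869 (n 7869 o o o o) (n 7869 o o o o)
   o (n 7869 o o o o)))))

/-- a part of the tree -/
def t220 : Tr :=
  (n 11667 (n 11667 o o (n 11667 (n 11667 o o (n 11667 o o o o) o) (n 11667 o o (n 11667 o o o o) (n
   11667 o o o o)) (n 11667 (n 11667 o o o o) (n 11667 o o o o) (n 11667 o o o o) o) o) (n 9904 (n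
   9904 o o o (n 9904 o o o o)) (n 9904 o o (n 7390 o o o o) (n 9904 o o o o)) o (n 8892 (n 8892 o o
   o o) (n 8892 o o o o) o (n 8892 o o o o)))) (n 10659 o o (n 10659 (n 10659 o o (n 10659 o o o o)
   (n 10659 o o o o)) (n 10659 o o (n 10659 o o o o) o) (n 10659 (n 10659 o o o o) (n 10659 o o o o)
   (n 10659 o o o o) o) o) (n 7410 (n 7390 o o (n 7390 o o o o) o) (n 7390 o o o o) o (n 7410 (n
   7410 o o o o) (n 7410 o o o o) o (n 7410 o o o o)))) (n 10852 (n 10852 o o (n 10852 (n 10852 o o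
   o o) (n 10852 o o o o) (n 10852 o o o o) o) (n 8952 (n 8952 o o o o) (n 8952 o o o o) o (n 7390 o
   o o o))) (n 10852 o o (n 10852 (n 10852 o o o o) (n 10852 o o o o) (n 10852 o o o o) o) (n 8952
   (n 8952 o o o o) (n 8952 o o o o) o (n 7390 o o o o))) (n 10852 (n 10852 o o (n 10852 o o o o) (n
   10852 o o o o)) (n 10852 o o (n 10852 o o o o) (n 10852 o o o o)) (n 10852 (n 10852 o o o o) (n
   10852 o o o o) (n 10852 o o o o) o) o) o) o)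

/-- a part of the tree -/
def t030 : Tr :=
  (n 10387 o o o (n 10387 (n 10387 o o o (n 10387 (n 10387 o o o o) (n 10387 o o o o) o (n 10387 o o o
   o))) (n 10387 o o (n 10387 (n 10387 o o o o) o o o) (n 10387 (n 10387 o o o o) (n 10387 o o o o)
   o (n 10387 o o o o))) o (n 10387 (n 10387 o o (n 10387 o o o o) (n 10387 o o o o)) (n 10387 o o
   (n 10387 o o o o) (n 10387 o o o o)) o (n 10387 (n 10387 o o o o) (n 10387 o o o o) o (n 10387 o
   o o o)))))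

/-- a part of the tree -/
def t130 : Tr :=
  (n 10121 o o (n 9534 (n 9534 o o (n 9534 (n 9534 o o o o) (n 9534 o o o o) (n 9534 o o o o) o) o) o
   (n 6163 (n 2867 o o (n 2867 o o o o) o) (n 2867 o o (n 2867 o o o o) (n 2867 o o o o)) (n 6163 (n
   6163 o o o o) (n 6163 o o o o) (n 6163 o o o o) o) o) o) (n 9315 (n 9315 o o (n 9315 o o (n 9315
   o o o o) o) (n 9315 (n 9315 o o o o) (n 9315 o o o o) o (n 9315 o o o o))) (n 8446 o o o (n 8446
   (n 8446 o o o o) (n 8446 o o o o) o (n 8446 o o o o))) o (n 9315 (n 9315 o o (n 9315 o o o o) (n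
   9315 o o o o)) (n 9315 o o (n 9315 o o o o) (n 9315 o o o o)) o (n 9315 (n 9315 o o o o) (n 9315
   o o o o) o (n 9315 o o o o)))))

/-- a part of the tree -/
def t330 : Tr :=
  (n 11240 (n 10622 o o (n 8603 (n 7364 o o o o) (n 7364 o o o (n 7364 o o o o)) (n 7345 (n 7345 o o o
   o) o (n 7345 o o o o) o) o) (n 10622 (n 10622 o o o (n 10622 o o o o)) (n 10622 o o (n 10622 o o
   o o) (n 10622 o o o o)) o (n 10622 (n 10622 o o o o) (n 10622 o o o o) o (n 10622 o o o o)))) (n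
   9967 o o (n 9383 (n 9383 o o o (n 9383 o o o o)) (n 9383 o o (n 9383 o o o o) o) (n 7345 (n 7345
   o o o o) o (n 7345 o o o o) o) o) (n 9967 (n 9967 o o (n 9967 o o o o) (n 9967 o o o o)) (n 9967
   o o o (n 9967 o o o o)) o (n 9967 (n 9967 o o o o) (n 9967 o o o o) o (n 9967 o o o o)))) o (n
   10677 (n 10677 o o (n 10677 (n 10677 o o o o) (n 10677 o o o o) (n 10677 o o o o) o) (n 10677 (n
   10677 o o o o) (n 10677 o o o o) o (n 10677 o o o o))) (n 10677 o o (n 10677 (n 10677 o o o o) (n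
   10677 o o o o) (n 10677 o o o o) o) (n 10677 (n 10677 o o o o) (n 10677 o o o o) o (n 10677 o o o
   o))) o (n 10677 (n 10677 o o (n 10677 o o o o) (n 10677 o o o o)) (n 10677 o o (n 10677 o o o o)
   (n 10677 o o o o)) o (n 10677 (n 10677 o o o o) (n 10677 o o o o) o (n 10677 o o o o)))))

/-- a part of the tree -/
def t021 : Tr :=
  (n 11756 o o (n 10933 (n 10128 o o (n 10128 (n 10128 o o o o) (n 10128 o o o o) (n 10128 o o o o) o)
   o) (n 10128 o o (n 10128 (n 10128 o o o o) (n 10128 o o o o) (n 10128 o o o o) o) (n 8245 (n 8245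
   o o o o) o o (n 8245 o o o o))) (n 10933 (n 10933 o o (n 10933 o o o o) (n 10933 o o o o)) (n
   10933 o o (n 10933 o o o o) (n 10933 o o o o)) (n 10933 (n 10933 o o o o) (n 10933 o o o o) (n
   10933 o o o o) o) o) o) (n 9651 o o o (n 6272 (n 6272 o o (n 6272 o o o o) (n 6272 o o o o)) (n
   2956 o o o (n 2956 o o o o)) o (n 6272 (n 6272 o o o o) (n 6272 o o o o) o (n 6272 o o o o)))))

/-- a part of the tree -/
def t121 : Tr :=
  (n 9873 o o (n 9873 (n 9873 o o (n 9873 (n 9873 o o o o) (n 9873 o o o o) (n 9873 o o o o) o) (n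
   9873 o o o o)) (n 9873 o o (n 9873 (n 9873 o o o o) (n 9873 o o o o) (n 9873 o o o o) o) o) (n
   9873 (n 9873 o o (n 9873 o o o o) (n 9873 o o o o)) (n 9873 o o (n 9873 o o o o) (n 9873 o o o
   o)) (n 9873 (n 9873 o o o o) (n 9873 o o o o) (n 9873 o o o o) o) o) o) o)

/-- a part of the tree -/
def t221 : Tr :=
  (n 11096 (n 10445 o o (n 10445 (n 10445 o o (n 10445 o o o o) o) (n 10445 o o (n 10445 o o o o) (n
   10445 o o o o)) (n 10445 (n 10445 o o o o) (n 10445 o o o o) (n 10445 o o o o) o) o) (n 9182 (n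
   9182 o o o (n 9182 o o o o)) (n 9182 o o (n 9182 o o o o) o) o (n 7036 o o o (n 7036 o o o o))))
   (n 9800 o o (n 9800 (n 9800 o o (n 9800 o o o o) (n 9800 o o o o)) (n 9800 o o (n 9800 o o o o)
   o) (n 9800 (n 9800 o o o o) (n 9800 o o o o) (n 9800 o o o o) o) o) (n 7622 (n 7622 o o (n 7622 o
   o o o) o) (n 7056 o o o o) o (n 7036 o o o (n 7036 o o o o)))) (n 10282 (n 10282 o o (n 10282 (n
   10282 o o o o) (n 10282 o o o o) (n 10282 o o o o) o) (n 8273 (n 8273 o o o o) (n 8273 o o o o) o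
   (n 7036 o o o o))) (n 10282 o o (n 10282 (n 10282 o o o o) (n 10282 o o o o) (n 10282 o o o o) o)
   (n 8273 (n 8273 o o o o) (n 8273 o o o o) o (n 7036 o o o o))) (n 10282 (n 10282 o o (n 10282 o o
   o o) (n 10282 o o o o)) (n 10282 o o (n 10282 o o o o) (n 10282 o o o o)) (n 10282 (n 10282 o o o
   o) (n 10282 o o o o) (n 10282 o o o o) o) o) o) o)

/-- a part of the tree -/
def t031 : Tr :=
  (n 11200 o o (n 9094 o o (n 7808 (n 7808 o o (n 7808 o o o o) (n 5123 o o o o)) (n 5969 o o (n 5969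
   o o o o) o) (n 7808 (n 7808 o o o o) (n 7808 o o o o) (n 7808 o o o o) o) o) o) (n 9882 (n 9882 o
   o o (n 9882 (n 9882 o o o o) (n 9882 o o o o) o (n 9882 o o o o))) (n 8535 o o (n 6679 (n 6679 o
   o o o) o o o) (n 8535 (n 8535 o o o o) (n 8535 o o o o) o (n 8535 o o o o))) o (n 9882 (n 9882 o
   o (n 9882 o o o o) (n 9882 o o o o)) (n 9882 o o (n 9882 o o o o) (n 9882 o o o o)) o (n 9882 (n
   9882 o o o o) (n 9882 o o o o) o (n 9882 o o o o)))))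

/-- a part of the tree -/
def t131 : Tr :=
  (n 9142 o o o (n 7874 (n 7874 o o (n 6507 o o o o) (n 7874 (n 7874 o o o o) (n 7874 o o o o) o (n
   7874 o o o o))) (n 7874 o o o (n 7874 (n 7874 o o o o) (n 7874 o o o o) o (n 7874 o o o o))) o (n
   7874 (n 7874 o o (n 7874 o o o o) (n 7874 o o o o)) (n 7874 o o (n 7874 o o o o) (n 7874 o o o
   o)) o (n 7874 (n 7874 o o o o) (n 7874 o o o o) o (n 7874 o o o o)))))

/-- a part of the tree -/
def t331 : Tr :=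
  (n 10759 (n 9820 o o (n 6698 (n 6698 o o o o) (n 6679 o o o (n 6679 o o o o)) (n 6698 (n 6698 o o o
   o) (n 6698 o o o o) (n 6698 o o o o) o) o) (n 9820 (n 9820 o o o (n 9820 o o o o)) (n 9820 o o (n
   9820 o o o o) (n 9820 o o o o)) o (n 9820 (n 9820 o o o o) (n 9820 o o o o) o (n 9820 o o o o))))
   (n 9820 o o (n 9169 (n 9169 o o (n 9169 o o o o) (n 6679 o o o o)) (n 9169 o o (n 9169 o o o o)
   o) (n 7937 (n 7937 o o o o) (n 7937 o o o o) (n 7937 o o o o) o) o) (n 9820 (n 9820 o o (n 9820 o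
   o o o) (n 9820 o o o o)) (n 9820 o o o (n 9820 o o o o)) o (n 9820 (n 9820 o o o o) (n 9820 o o o
   o) o (n 9820 o o o o)))) o (n 10196 (n 10196 o o (n 10196 (n 10196 o o o o) (n 10196 o o o o) (n
   10196 o o o o) o) (n 10196 (n 10196 o o o o) (n 10196 o o o o) o (n 10196 o o o o))) (n 10196 o o
   (n 10196 (n 10196 o o o o) (n 10196 o o o o) (n 10196 o o o o) o) (n 10196 (n 10196 o o o o) (n
   10196 o o o o) o (n 10196 o o o o))) o (n 10196 (n 10196 o o (n 10196 o o o o) (n 10196 o o o o))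
   (n 10196 o o (n 10196 o o o o) (n 10196 o o o o)) o (n 10196 (n 10196 o o o o) (n 10196 o o o o)
   o (n 10196 o o o o)))))

/-- a part of the tree -/
def t202 : Tr :=
  (n 16527 (n 16169 o o (n 16169 (n 16169 o o (n 16169 o o o o) o) (n 16169 o o (n 16169 o o o o) (n
   16169 o o o o)) (n 16169 (n 16169 o o o o) (n 16169 o o o o) (n 16169 o o o o) o) o) o) (n 16169
   o o (n 16169 (n 16169 o o (n 16169 o o o o) (n 16169 o o o o)) (n 16169 o o (n 16169 o o o o) o)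
   (n 16169 (n 16169 o o o o) (n 16169 o o o o) (n 16169 o o o o) o) o) (n 14665 (n 14665 o o o (n
   14665 o o o o)) o o (n 11452 (n 7788 o o o o) (n 7788 o o o o) o (n 11452 o o o o)))) (n 16527 (n
   16527 o o (n 16527 (n 16527 o o o o) (n 16527 o o o o) (n 16527 o o o o) o) (n 16527 (n 16527 o o
   o o) (n 16527 o o o o) o (n 16527 o o o o))) (n 16527 o o (n 16527 (n 16527 o o o o) (n 16527 o o
   o o) (n 16527 o o o o) o) (n 16527 (n 16527 o o o o) (n 16527 o o o o) o (n 16527 o o o o))) (n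
   16527 (n 16527 o o (n 16527 o o o o) (n 16527 o o o o)) (n 16527 o o (n 16527 o o o o) (n 16527 o
   o o o)) (n 16527 (n 16527 o o o o) (n 16527 o o o o) (n 16527 o o o o) o) o) o) o)

/-- a part of the tree -/
def t302 : Tr :=
  (n 11136 (n 6847 o o o (n 6847 (n 6847 o o o (n 6847 o o o o)) (n 6847 o o (n 6847 o o o o) (n 6847
   o o o o)) o (n 6847 (n 6847 o o o o) (n 6847 o o o o) o (n 6847 o o o o)))) (n 6847 o o (n 6350
   (n 6350 o o (n 6350 o o o o) o) o (n 6350 (n 6350 o o o o) (n 6350 o o o o) (n 6350 o o o o) o)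
   o) (n 5033 (n 5033 o o (n 5033 o o o o) (n 5033 o o o o)) (n 3077 o o o (n 3077 o o o o)) o (n
   5033 (n 5033 o o o o) (n 5033 o o o o) o (n 5033 o o o o)))) o (n 8765 (n 7375 o o (n 2832 (n 45
   o o o o) (n 45 o o o o) o o) (n 7375 (n 7375 o o o o) (n 7375 o o o o) o (n 7375 o o o o))) (n
   5901 o o (n 4587 (n 4587 o o o o) (n 4587 o o o o) o o) (n 5901 (n 5901 o o o o) (n 5901 o o o o)
   o (n 5901 o o o o))) o (n 7498 (n 7498 o o (n 7498 o o o o) (n 7498 o o o o)) (n 7498 o o (n 7498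
   o o o o) (n 7498 o o o o)) o (n 7498 (n 7498 o o o o) (n 7498 o o o o) o (n 7498 o o o o)))))

/-- a part of the tree -/
def t212 : Tr :=
  (n 15730 (n 15071 o o (n 15071 (n 15071 o o (n 15071 o o o o) o) (n 15071 o o (n 15071 o o o o) (n
   15071 o o o o)) (n 15071 (n 15071 o o o o) (n 15071 o o o o) (n 15071 o o o o) o) o) (n 15063 o o
   o (n 7461 (n 7461 o o o o) o o (n 7461 o o o o)))) (n 15071 o o (n 15071 (n 15071 o o (n 15071 o
   o o o) (n 15071 o o o o)) (n 15071 o o (n 15071 o o o o) o) (n 15071 (n 15071 o o o o) (n 15071 o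
   o o o) (n 15071 o o o o) o) o) o) (n 15730 (n 15730 o o (n 15730 (n 15730 o o o o) (n 15730 o o o
   o) (n 15730 o o o o) o) (n 15730 (n 15730 o o o o) (n 15730 o o o o) o (n 15730 o o o o))) (n
   15730 o o (n 15730 (n 15730 o o o o) (n 15730 o o o o) (n 15730 o o o o) o) (n 15730 (n 15730 o o
   o o) (n 15730 o o o o) o (n 15730 o o o o))) (n 15730 (n 15730 o o (n 15730 o o o o) (n 15730 o o
   o o)) (n 15730 o o (n 15730 o o o o) (n 15730 o o o o)) (n 15730 (n 15730 o o o o) (n 15730 o o o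
   o) (n 15730 o o o o) o) o) o) o)

/-- a part of the tree -/
def t312 : Tr :=
  (n 10178 (n 10174 o o (n 6042 o o (n 6042 (n 6042 o o o o) (n 6042 o o o o) (n 6042 o o o o) o) o)
   (n 7209 (n 7209 o o o (n 7209 o o o o)) (n 4177 o o o (n 4177 o o o o)) o (n 7209 (n 7209 o o o
   o) (n 7209 o o o o) o (n 7209 o o o o)))) (n 5930 o o o (n 3077 (n 3077 o o o (n 3077 o o o o))
   (n 3077 o o o (n 3077 o o o o)) o (n 3077 (n 3077 o o o o) (n 3077 o o o o) o (n 3077 o o o o))))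
   o (n 9181 (n 7068 o o (n 45 (n 45 o o o o) o (n 45 o o o o) o) (n 7068 (n 7068 o o o o) (n 7068 o
   o o o) o (n 7068 o o o o))) (n 7068 o o (n 5604 (n 5604 o o o o) (n 5604 o o o o) (n 2831 o o o
   o) o) (n 7068 (n 7068 o o o o) (n 7068 o o o o) o (n 7068 o o o o))) o (n 7915 (n 7915 o o (n
   7915 o o o o) (n 7915 o o o o)) (n 7915 o o (n 7915 o o o o) (n 7915 o o o o)) o (n 7915 (n 7915
   o o o o) (n 7915 o o o o) o (n 7915 o o o o)))))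

/-- a part of the tree -/
def t022 : Tr :=
  (n 17421 o o (n 17421 (n 17421 o o (n 17421 (n 17421 o o o o) (n 17421 o o o o) (n 17421 o o o o) o)
   o) (n 17421 o o (n 17421 (n 17421 o o o o) (n 17421 o o o o) (n 17421 o o o o) o) (n 17421 (n
   17421 o o o o) o o (n 17421 o o o o))) (n 17421 (n 17421 o o (n 17421 o o o o) (n 17421 o o o o))
   (n 17421 o o (n 17421 o o o o) (n 17421 o o o o)) (n 17421 (n 17421 o o o o) (n 17421 o o o o) (n
   17421 o o o o) o) o) o) (n 15304 (n 15304 o o o (n 15304 (n 15304 o o o o) (n 15304 o o o o) o (n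
   15304 o o o o))) (n 15304 o o (n 14187 (n 14187 o o o o) o (n 14187 o o o o) o) (n 11224 (n 11224
   o o o o) (n 6822 o o o o) o (n 11224 o o o o))) o (n 13348 (n 10221 o o o (n 10221 o o o o)) (n
   10221 o o (n 10221 o o o o) (n 10221 o o o o)) o (n 10498 (n 10498 o o o o) (n 10498 o o o o) o
   (n 10498 o o o o)))))

/-- a part of the tree -/
def t122 : Tr :=
  (n 16687 o o (n 16687 (n 16687 o o (n 16687 (n 16687 o o o o) (n 16687 o o o o) (n 16687 o o o o) o)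
   (n 16687 o o o (n 16687 o o o o))) (n 16687 o o (n 16687 (n 16687 o o o o) (n 16687 o o o o) (n
   16687 o o o o) o) o) (n 16687 (n 16687 o o (n 16687 o o o o) (n 16687 o o o o)) (n 16687 o o (n
   16687 o o o o) (n 16687 o o o o)) (n 16687 (n 16687 o o o o) (n 16687 o o o o) (n 16687 o o o o)
   o) o) o) (n 13503 (n 13494 o o (n 13494 o o (n 13494 o o o o) o) (n 6822 (n 6822 o o o o) o o (n
   6822 o o o o))) (n 13242 o o o (n 6822 (n 6822 o o o o) (n 6822 o o o o) o (n 6822 o o o o))) o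
   (n 12689 (n 9562 o o o (n 9562 o o o o)) (n 9562 o o (n 6269 o o o o) (n 9562 o o o o)) o (n 9840
   (n 9840 o o o o) (n 9840 o o o o) o (n 9840 o o o o)))))

/-- a part of the tree -/
def t222 : Tr :=
  (n 16987 (n 16987 o o (n 16987 (n 16987 o o (n 16987 o o o o) o) (n 16987 o o (n 16987 o o o o) (n
   16987 o o o o)) (n 16987 (n 16987 o o o o) (n 16987 o o o o) (n 16987 o o o o) o) o) (n 15250 (n
   15250 o o o (n 15250 o o o o)) (n 15250 o o (n 15250 o o o o) (n 15250 o o o o)) o (n 14006 (n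
   14006 o o o o) (n 14006 o o o o) o (n 7594 o o o o)))) (n 16987 o o (n 16987 (n 16987 o o (n
   16987 o o o o) (n 16987 o o o o)) (n 16987 o o (n 16987 o o o o) o) (n 16987 (n 16987 o o o o) (n
   16987 o o o o) (n 16987 o o o o) o) o) (n 15250 (n 15250 o o (n 15250 o o o o) (n 15250 o o o o))
   (n 15250 o o o (n 15250 o o o o)) o (n 14006 (n 14006 o o o o) (n 14006 o o o o) o (n 7594 o o o
   o)))) (n 16987 (n 16987 o o (n 16987 (n 16987 o o o o) (n 16987 o o o o) (n 16987 o o o o) o) (n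
   16987 (n 16987 o o o o) (n 16987 o o o o) o (n 16987 o o o o))) (n 16987 o o (n 16987 (n 16987 o
   o o o) (n 16987 o o o o) (n 16987 o o o o) o) (n 16987 (n 16987 o o o o) (n 16987 o o o o) o (n
   16987 o o o o))) (n 16987 (n 16987 o o (n 16987 o o o o) (n 16987 o o o o)) (n 16987 o o (n 16987
   o o o o) (n 16987 o o o o)) (n 16987 (n 16987 o o o o) (n 16987 o o o o) (n 16987 o o o o) o) o)
   o) o)

/-- a part of the tree -/
def t203 : Tr :=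
  (n 10443 (n 6156 o o (n 3379 (n 3379 o o (n 3379 o o o o) o) (n 3379 o o (n 3379 o o o o) o) (n 3379
   (n 3379 o o o o) (n 3379 o o o o) (n 3379 o o o o) o) o) o) (n 6153 o o (n 3379 (n 45 o o (n 45 o
   o o o) o) (n 45 o o (n 45 o o o o) o) (n 3379 (n 3379 o o o o) (n 3379 o o o o) (n 3379 o o o o)
   o) o) (n 6153 (n 6153 o o o (n 6153 o o o o)) o o (n 6153 (n 6153 o o o o) (n 6153 o o o o) o (n
   6153 o o o o)))) (n 9623 (n 9623 o o (n 9623 (n 9623 o o o o) (n 9623 o o o o) (n 9623 o o o o)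
   o) (n 5656 (n 5656 o o o o) (n 5656 o o o o) o (n 3379 o o o o))) (n 7354 o o (n 7354 (n 7354 o o
   o o) (n 7354 o o o o) (n 7354 o o o o) o) (n 45 o o o (n 45 o o o o))) (n 7790 (n 7790 o o (n
   7790 o o o o) (n 3515 o o o o)) (n 7790 o o (n 7790 o o o o) (n 3515 o o o o)) (n 7790 (n 7790 o
   o o o) (n 7790 o o o o) (n 7790 o o o o) o) o) o) o)

/-- a part of the tree -/
def t303 : Tr :=
  (n 16425 (n 16425 o o o (n 16425 (n 16425 o o o (n 16425 o o o o)) (n 16425 o o (n 16425 o o o o) (n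
   16425 o o o o)) o (n 16425 (n 16425 o o o o) (n 16425 o o o o) o (n 16425 o o o o)))) (n 15826 o
   o (n 15001 (n 15001 o o (n 15001 o o o o) o) o (n 7416 o o (n 7416 o o o o) o) o) (n 15826 (n
   15826 o o (n 15826 o o o o) (n 15826 o o o o)) (n 15826 o o o (n 15826 o o o o)) o (n 15826 (n
   15826 o o o o) (n 15826 o o o o) o (n 15826 o o o o)))) o (n 16425 (n 16425 o o (n 16425 (n 16425
   o o o o) (n 16425 o o o o) (n 16425 o o o o) o) (n 16425 (n 16425 o o o o) (n 16425 o o o o) o (n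
   16425 o o o o))) (n 16425 o o (n 16425 (n 16425 o o o o) (n 16425 o o o o) (n 16425 o o o o) o)
   (n 16425 (n 16425 o o o o) (n 16425 o o o o) o (n 16425 o o o o))) o (n 16425 (n 16425 o o (n
   16425 o o o o) (n 16425 o o o o)) (n 16425 o o (n 16425 o o o o) (n 16425 o o o o)) o (n 16425 (n
   16425 o o o o) (n 16425 o o o o) o (n 16425 o o o o)))))

/-- a part of the tree -/
def t213 : Tr :=
  (n 11280 (n 11280 o o (n 9427 (n 7616 o o (n 7616 o o o o) o) (n 7616 o o (n 7616 o o o o) (n 3379 o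
   o o o)) (n 9427 (n 9427 o o o o) (n 9427 o o o o) (n 9427 o o o o) o) o) (n 6551 o o o (n 6551 (n
   6551 o o o o) (n 6551 o o o o) o (n 6551 o o o o)))) (n 7043 o o (n 7043 (n 7043 o o (n 7043 o o
   o o) (n 7043 o o o o)) (n 7043 o o (n 7043 o o o o) o) (n 7043 (n 7043 o o o o) (n 7043 o o o o)
   (n 7043 o o o o) o) o) o) (n 9136 (n 7671 o o (n 7671 (n 7671 o o o o) (n 7671 o o o o) (n 7671 o
   o o o) o) (n 4829 (n 4829 o o o o) (n 4829 o o o o) o o)) (n 6220 o o (n 6220 (n 6220 o o o o) (n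
   6220 o o o o) (n 6220 o o o o) o) (n 1319 (n 1319 o o o o) (n 45 o o o o) o o)) (n 7304 (n 7304 o
   o (n 7304 o o o o) (n 2784 o o o o)) (n 7304 o o (n 7304 o o o o) (n 2784 o o o o)) (n 7304 (n
   7304 o o o o) (n 7304 o o o o) (n 7304 o o o o) o) o) o) o)

/-- a part of the tree -/
def t313 : Tr :=
  (n 14926 (n 14926 o o (n 14319 o o (n 11427 (n 11427 o o o o) (n 7287 o o o o) (n 11427 o o o o) o)
   o) (n 14926 (n 14926 o o o (n 14926 o o o o)) (n 14926 o o (n 14926 o o o o) (n 14926 o o o o)) o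
   (n 14926 (n 14926 o o o o) (n 14926 o o o o) o (n 14926 o o o o)))) (n 14540 o o o (n 14540 (n
   14540 o o (n 14540 o o o o) (n 14540 o o o o)) (n 14540 o o o (n 14540 o o o o)) o (n 14540 (n
   14540 o o o o) (n 14540 o o o o) o (n 14540 o o o o)))) o (n 14926 (n 14926 o o (n 14926 (n 14926
   o o o o) (n 14926 o o o o) (n 14926 o o o o) o) (n 14926 (n 14926 o o o o) (n 14926 o o o o) o (n
   14926 o o o o))) (n 14926 o o (n 14926 (n 14926 o o o o) (n 14926 o o o o) (n 14926 o o o o) o)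
   (n 14926 (n 14926 o o o o) (n 14926 o o o o) o (n 14926 o o o o))) o (n 14926 (n 14926 o o (n
   14926 o o o o) (n 14926 o o o o)) (n 14926 o o (n 14926 o o o o) (n 14926 o o o o)) o (n 14926 (n
   14926 o o o o) (n 14926 o o o o) o (n 14926 o o o o)))))

/-- a part of the tree -/
def t033 : Tr :=
  (n 16586 o o (n 14302 (n 13751 o o (n 7502 (n 7502 o o o o) (n 7502 o o o o) (n 7502 o o o o) o) o)
   (n 13743 o o (n 7502 o o (n 7502 o o o o) o) (n 13743 (n 13743 o o o o) o o (n 13743 o o o o)))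
   (n 13743 (n 13743 o o (n 13743 o o o o) (n 7502 o o o o)) (n 10479 o o (n 10479 o o o o) o) (n
   9620 (n 9620 o o o o) (n 9620 o o o o) (n 9620 o o o o) o) o) o) (n 16586 (n 16586 o o o (n 16586
   (n 16586 o o o o) (n 16586 o o o o) o (n 16586 o o o o))) (n 16586 o o (n 16586 (n 16586 o o o o)
   o (n 16586 o o o o) o) (n 16586 (n 16586 o o o o) (n 16586 o o o o) o (n 16586 o o o o))) o (n
   16586 (n 16586 o o (n 16586 o o o o) (n 16586 o o o o)) (n 16586 o o (n 16586 o o o o) (n 16586 o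
   o o o)) o (n 16586 (n 16586 o o o o) (n 16586 o o o o) o (n 16586 o o o o)))))

/-- a part of the tree -/
def t133 : Tr :=
  (n 16295 o o (n 15747 (n 15747 o o (n 11577 (n 7502 o o o o) (n 7502 o o o o) (n 11577 o o o o) o)
   (n 14640 o o o (n 14640 o o o o))) (n 15747 o o (n 15747 (n 15747 o o o o) (n 15747 o o o o) (n
   15747 o o o o) o) o) (n 14293 (n 14293 o o (n 14293 o o o o) (n 10766 o o o o)) (n 11029 o o (n
   11029 o o o o) o) (n 10170 (n 10170 o o o o) (n 10170 o o o o) (n 10170 o o o o) o) o) o) (n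
   16295 (n 16295 o o (n 16295 o o (n 16295 o o o o) o) (n 16295 (n 16295 o o o o) (n 16295 o o o o)
   o (n 16295 o o o o))) (n 16295 o o o (n 16295 (n 16295 o o o o) (n 16295 o o o o) o (n 16295 o o
   o o))) o (n 16295 (n 16295 o o (n 16295 o o o o) (n 16295 o o o o)) (n 16295 o o (n 16295 o o o
   o) (n 16295 o o o o)) o (n 16295 (n 16295 o o o o) (n 16295 o o o o) o (n 16295 o o o o)))))

/-- a part of the tree -/
def t333 : Tr :=
  (n 16778 (n 16778 o o (n 16778 (n 16778 o o (n 16778 o o o o) o) (n 16778 o o (n 16778 o o o o) (n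
   16778 o o o o)) (n 16778 (n 16778 o o o o) (n 16778 o o o o) (n 7502 o o o o) o) o) (n 16778 (n
   16778 o o o (n 16778 o o o o)) (n 16778 o o (n 16778 o o o o) (n 16778 o o o o)) o (n 16778 (n
   16778 o o o o) (n 16778 o o o o) o (n 16778 o o o o)))) (n 16778 o o (n 16778 (n 16778 o o (n
   16778 o o o o) (n 16778 o o o o)) (n 16778 o o (n 16778 o o o o) o) (n 16778 (n 16778 o o o o) (n
   16778 o o o o) (n 7502 o o o o) o) o) (n 16778 (n 16778 o o (n 16778 o o o o) (n 16778 o o o o))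
   (n 16778 o o o (n 16778 o o o o)) o (n 16778 (n 16778 o o o o) (n 16778 o o o o) o (n 16778 o o o
   o)))) o (n 16778 (n 16778 o o (n 16778 (n 16778 o o o o) (n 16778 o o o o) (n 16778 o o o o) o)
   (n 16778 (n 16778 o o o o) (n 16778 o o o o) o (n 16778 o o o o))) (n 16778 o o (n 16778 (n 16778
   o o o o) (n 16778 o o o o) (n 16778 o o o o) o) (n 16778 (n 16778 o o o o) (n 16778 o o o o) o (n
   16778 o o o o))) o (n 16778 (n 16778 o o (n 16778 o o o o) (n 16778 o o o o)) (n 16778 o o (n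
   16778 o o o o) (n 16778 o o o o)) o (n 16778 (n 16778 o o o o) (n 16778 o o o o) o (n 16778 o o o
   o)))))

/-- the tree -/
def tree : Tr :=
  (n 29583 (n 15357 o o (n 12031 t020 t120 t220 o) (n 12294 t030 t130 o t330)) (n 14323 o o (n 12049
   t021 t121 t221 o) (n 11202 t031 t131 o t331)) (n 18618 (n 17442 o o t202 t302) (n 16278 o o t212
   t312) (n 17711 t022 t122 t222 o) o) (n 18166 (n 17010 o o t203 t303) (n 15848 o o t213 t313) o (n
   17278 t033 t133 o t333)))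

end Pool.Agent.H.MP_dd51f8_al.NB
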