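import Pool.Agent.H.MP_dd51f8_al.NB.Data

/-!
# MP_dd51f8_al : the potential is correct
-/

namespace Pool.Agent.H.MP_dd51f8_al.NB

theorem tree_ok : chk tree R7 R8 tree [] = true := by
  decide +kernel

end Pool.Agent.H.MP_dd51f8_al.NB
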