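import Pool.Agent.H.MP_dd51f8_al.NB.UpR
import Pool.Agent.H.MP_dd51f8_al.NB.UpT
import Pool.Agent.H.MP_dd51f8_al.ER.Lo

/-!
# MP_dd51f8_al : the bounds 2.048 and 9/4
-/

namespace Pool.Agent.H.MP_dd51f8_al.NB

theorem up : Real.exp (L shiftZ cycZ) ≤ 9 / 4 :=
  L_le_nine (T := tree) (l7 := R7) (l8 := R8) (fun r hr => List.all_eq_true.1 rules_ok r hr) tree_ok
    (by decide +kernel)

theorem bounds (U : OddSeq) (lam : ℝ)
    (h : HasRate ({alpha U, beta U} : Set (Equiv.Perm (X U))) lam) :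
    2.048 ≤ lam ∧ lam ≤ 9 / 4 := by
  have h1 := hasRate (alpha U) (beta U)
  rw [L_eq U] at h1
  have h2 : lam = Real.exp (L shiftZ cycZ) := tendsto_nhds_unique h h1
  rw [h2]
  refine ⟨?_, up⟩
  calc (2.048 : ℝ) = 256 / 125 := by norm_num
    _ = Real.exp (Real.log (256 / 125)) := (Real.exp_log (by norm_num)).symm
    _ ≤ _ := Real.exp_le_exp.2 ER.lower6

end Pool.Agent.H.MP_dd51f8_al.NB
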