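import Pool.Agent.H.MP_dd51f8_al.NB.Data

/-!
# MP_dd51f8_al : the rules are correct
-/

namespace Pool.Agent.H.MP_dd51f8_al.NB

theorem rules_ok : (R7 ++ R8).all okr = true := by
  decide +kernel

end Pool.Agent.H.MP_dd51f8_al.NB
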